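import Pool.Agent.Helper97.Ku.GoalsA

/-! MIX and FULL (MP_47bc22_lc). -/

namespace Pool.Agent.Helper97.Ku.PkFull

universe u

open BSet

theorem mix : G_MIX.{u} := by
  intro L _ ι a x hd
  refine ⟨mk (Σ i, (x i).ix) (fun t => (x t.1).el t.2) (fun t => a t.1 ⊓ (x t.1).bv t.2),
    fun i => ?_⟩
  refine le_trans (le_iInf fun z => le_inf ?_ ?_) (ext_le _ _)
  · rw [le_himp_iff, mem_mk, inf_iSup_eq]
    refine iSup_le fun t => ?_
    by_cases h : i = t.1
    · subst h
      rw [mem_def z (x t.1)]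
      refine le_trans ?_ (le_iSup _ t.2)
      exact le_trans inf_le_right (inf_le_inf_right _ inf_le_right)
    · have h0 := hd i t.1 h
      have h1 : a i ⊓ (a t.1 ⊓ (x t.1).bv t.2 ⊓ z.eq ((x t.1).el t.2)) ≤ a i ⊓ a t.1 :=
        inf_le_inf_left _ (le_trans inf_le_left inf_le_left)
      rw [h0] at h1
      exact le_trans h1 bot_le
  · rw [le_himp_iff, mem_mk, mem_def z (x i), inf_iSup_eq]
    refine iSup_le fun j => ?_
    refine le_trans ?_ (le_iSup (fun t : (Σ i, (x i).ix) =>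
      a t.1 ⊓ (x t.1).bv t.2 ⊓ z.eq ((x t.1).el t.2)) ⟨i, j⟩)
    rw [inf_assoc]

variable {L : Type u} [CompleteBooleanAlgebra L]

/-- Disjoint refinement of a family. -/
theorem exists_disjoint {ι : Type u} (f : ι → L) : ∃ a : ι → L, (∀ i, a i ≤ f i) ∧
    (∀ i j, i ≠ j → a i ⊓ a j = ⊥) ∧ (⨆ i, a i) = ⨆ i, f i := by
  classical
  let r : ι → ι → Prop := WellOrderingRel
  have hwf : WellFounded r := WellOrderingRel.isWellOrder.wf
  let S : ι → L := fun i => ⨆ j, ⨆ (_ : r j i), f j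
  have hS : ∀ i j, r j i → f j ≤ S i := fun i j h => le_iSup₂_of_le j h le_rfl
  have key : ∀ i j, r i j → (f i ⊓ (S i)ᶜ) ⊓ (f j ⊓ (S j)ᶜ) = ⊥ := by
    intro i j h
    rw [eq_bot_iff]
    have h1 : (f i ⊓ (S i)ᶜ) ⊓ (f j ⊓ (S j)ᶜ) ≤ S j ⊓ (S j)ᶜ :=
      inf_le_inf (le_trans inf_le_left (hS j i h)) inf_le_right
    rwa [inf_compl_self] at h1
  refine ⟨fun i => f i ⊓ (S i)ᶜ, fun i => inf_le_left, fun i j hij => ?_, ?_⟩
  · rcases trichotomous_of r i j with h | h | h
    · exact key i j h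
    · exact absurd h hij
    · change (f i ⊓ (S i)ᶜ) ⊓ (f j ⊓ (S j)ᶜ) = ⊥
      rw [inf_comm]; exact key j i h
  · apply le_antisymm
    · exact iSup_mono fun i => inf_le_left
    · refine iSup_le fun i => ?_
      induction i using hwf.induction with
      | _ i ih =>
        have h1 : f i = (f i ⊓ S i) ⊔ (f i ⊓ (S i)ᶜ) := by
          rw [← inf_sup_left, sup_compl_eq_top, inf_top_eq]
        rw [h1]
        refine sup_le (le_trans inf_le_right ?_) (le_iSup (fun i => f i ⊓ (S i)ᶜ) i)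
        exact iSup₂_le fun j hj => ih j hj

theorem full1 (φ ψ : BSet L → L) (hφ : Ext φ) (hψ : Ext ψ) (h0 : ∃ x, ψ x = ⊤) :
    ∃ x, ψ x = ⊤ ∧ φ x = ⨆ y, (ψ y ⊓ φ y) := by
  classical
  obtain ⟨x0, hx0⟩ := h0
  -- the values at global elements
  let R : L → Prop := fun c => ∃ y, ψ y = ⊤ ∧ φ y = c
  have step1 : (⨆ y, (ψ y ⊓ φ y)) ≤ ⨆ c : L, ⨆ (_ : R c), c := by
    refine iSup_le fun y => ?_
    obtain ⟨y', hy'⟩ := mix L (ULift.{u} Bool) (fun b => if b.down then ψ y else (ψ y)ᶜ)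
      (fun b => if b.down then y else x0) (by
        rintro ⟨i⟩ ⟨j⟩ hij
        cases i <;> cases j <;> simp at hij ⊢)
    have h1 : ψ y ≤ y'.eq y := hy' ⟨true⟩
    have h2 : (ψ y)ᶜ ≤ y'.eq x0 := hy' ⟨false⟩
    have h3 : ψ y' = ⊤ := by
      rw [eq_top_iff, ← sup_compl_eq_top (x := ψ y)]
      refine sup_le ?_ ?_
      · refine le_trans (le_inf ?_ le_rfl) (hψ y y')
        rw [eq_comm']; exact h1
      · refine le_trans (le_inf ?_ ?_) (hψ x0 y')
        · rw [eq_comm']; exact h2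
        · rw [hx0]; exact le_top
    have h4 : ψ y ⊓ φ y ≤ φ y' := by
      refine le_trans (le_inf ?_ inf_le_right) (hφ y y')
      rw [eq_comm']; exact le_trans inf_le_left h1
    exact le_trans h4 (le_iSup₂_of_le (φ y') ⟨y', h3, rfl⟩ le_rfl)
  obtain ⟨a, ha1, ha2, ha3⟩ := exists_disjoint (fun c : L => ⨆ (_ : R c), c)
  let yy : L → BSet L := fun c => if h : R c then h.choose else x0
  have hyy : ∀ c, ψ (yy c) = ⊤ := by
    intro c
    by_cases h : R c
    · simp only [yy, dif_pos h]; exact h.choose_spec.1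
    · simp only [yy, dif_neg h]; exact hx0
  have hyy2 : ∀ c, R c → φ (yy c) = c := by
    intro c h
    simp only [yy, dif_pos h]; exact h.choose_spec.2
  obtain ⟨y, hy⟩ := mix L (Option L) (fun o => o.elim (⨆ c, a c)ᶜ a) (fun o => o.elim x0 yy) (by
    intro i j hij
    have hn : ∀ c, a c ⊓ (⨆ c, a c)ᶜ = ⊥ := by
      intro c
      rw [eq_bot_iff, ← inf_compl_self (a := ⨆ c, a c)]
      exact inf_le_inf_right _ (le_iSup a c)
    cases i with
    | none =>
      cases j with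
      | none => exact absurd rfl hij
      | some c => simp only [Option.elim]; rw [inf_comm]; exact hn c
    | some c =>
      cases j with
      | none => simp only [Option.elim]; exact hn c
      | some d => simp only [Option.elim]; exact ha2 c d (fun h => hij (by rw [h])))
  have hya : ∀ c, a c ≤ y.eq (yy c) := fun c => hy (some c)
  have hyn : (⨆ c, a c)ᶜ ≤ y.eq x0 := hy none
  have hψy : ψ y = ⊤ := by
    rw [eq_top_iff, ← sup_compl_eq_top (x := ⨆ c, a c)]
    refine sup_le (iSup_le fun c => ?_) ?_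
    · refine le_trans (le_inf ?_ ?_) (hψ (yy c) y)
      · rw [eq_comm']; exact hya c
      · rw [hyy c]; exact le_top
    · refine le_trans (le_inf ?_ ?_) (hψ x0 y)
      · rw [eq_comm']; exact hyn
      · rw [hx0]; exact le_top
  refine ⟨y, hψy, le_antisymm ?_ ?_⟩
  · refine le_trans ?_ (le_iSup _ y)
    rw [hψy, top_inf_eq]
  · refine le_trans step1 ?_
    rw [← ha3]
    refine iSup_le fun c => ?_
    by_cases h : R c
    · refine le_trans (le_inf ?_ ?_) (hφ (yy c) y)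
      · rw [eq_comm']; exact hya c
      · rw [hyy2 c h]
        refine le_trans (ha1 c) ?_
        exact iSup_le fun _ => le_rfl
    · refine le_trans (ha1 c) ?_
      exact iSup_le fun h' => absurd h' h

theorem full : G_FULL.{u} := by
  intro L _ φ ψ hφ hψ h0
  refine ⟨full1 φ ψ hφ hψ h0, ?_⟩
  obtain ⟨x, h1, h2⟩ := full1 (fun y => (φ y)ᶜ) ψ (Ext.compl hφ) hψ h0
  refine ⟨x, h1, ?_⟩
  have h3 : φ x = (⨆ y, (ψ y ⊓ (φ y)ᶜ))ᶜ := by rw [← h2, compl_compl]
  rw [h3, compl_iSup]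
  refine iInf_congr fun y => ?_
  rw [compl_inf, compl_compl, himp_eq, sup_comm]

end Pool.Agent.Helper97.Ku.PkFull
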