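import Pool.Agent.Helper97.Ku.GoalsG

/-! Kuratowski pairs in the Boolean-valued universe and in its quotients. -/

namespace Pool.Agent.Helper97.Ku.PkPrn

universe u

open BSet

variable {L : Type u} [CompleteBooleanAlgebra L]

theorem mem_upr (a b x : BSet L) : x.mem (upr a b) = x.eq a ⊔ x.eq b := by
  rw [upr, mem_mk]
  apply le_antisymm
  · refine iSup_le fun t => ?_
    rcases t with ⟨_ | _⟩
    · simp
    · simp
  · refine sup_le ?_ ?_
    · refine le_trans ?_ (le_iSup _ ⟨true⟩)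
      simp
    · refine le_trans ?_ (le_iSup _ ⟨false⟩)
      simp

theorem nm_ext (hF : G_FULL.{u}) (U : UF L) (a b : NM U)
    (h : ∀ x, NM.E x a ↔ NM.E x b) : a = b := by
  obtain ⟨x, rfl⟩ := NM.mk_surj U a
  obtain ⟨y, rfl⟩ := NM.mk_surj U b
  rw [NM.mk_eq]
  have hE : Ext (fun z : BSet L => (z.mem x ⇨ z.mem y) ⊓ (z.mem y ⇨ z.mem x)) :=
    ((Ext.mem_left x).himp (Ext.mem_left y)).inf ((Ext.mem_left y).himp (Ext.mem_left x))
  obtain ⟨_, z, _, hz⟩ := hF L _ (fun _ => ⊤) hE (Ext.const ⊤) ⟨x, rfl⟩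
  refine U.mono (ext_le x y) ?_
  simp only [top_himp] at hz
  rw [← hz, U.inf_iff, U.himp_iff, U.himp_iff]
  have := h (NM.mk U z)
  rw [NM.mk_E, NM.mk_E] at this
  exact ⟨this.1, this.2⟩

theorem E_upr (U : UF L) (a b : BSet L) (t : NM U) :
    NM.E t (NM.mk U (upr a b)) ↔ (t = NM.mk U a ∨ t = NM.mk U b) := by
  obtain ⟨x, rfl⟩ := NM.mk_surj U t
  rw [NM.mk_E, mem_upr, U.sup_iff, NM.mk_eq, NM.mk_eq]

theorem upr_iff (hF : G_FULL.{u}) (U : UF L) (a b : BSet L) (t : NM U) :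
    (∀ s, NM.E s t ↔ (s = NM.mk U a ∨ s = NM.mk U b)) ↔ t = NM.mk U (upr a b) := by
  constructor
  · intro h
    exact nm_ext hF U _ _ fun s => by rw [h s, E_upr]
  · rintro rfl s
    exact E_upr U a b s

theorem usg_iff (hF : G_FULL.{u}) (U : UF L) (a : BSet L) (t : NM U) :
    (∀ s, NM.E s t ↔ s = NM.mk U a) ↔ t = NM.mk U (upr a a) := by
  rw [← upr_iff hF U a a t]
  simp

theorem isPr_iff (hF : G_FULL.{u}) (U : UF L) (a b : BSet L) (z : NM U) :
    IsPr NM.E z (NM.mk U a) (NM.mk U b) ↔ z = NM.mk U (kpr a b) := by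
  rw [kpr, ← upr_iff hF U _ _ z]
  simp only [IsPr, upr_iff hF U a b, usg_iff hF U a]

theorem upr_eq (hF : G_FULL.{u}) (U : UF L) (a b c d : BSet L)
    (h : NM.mk U (upr a b) = NM.mk U (upr c d)) :
    (NM.mk U a = NM.mk U c ∨ NM.mk U a = NM.mk U d) ∧
    (NM.mk U b = NM.mk U c ∨ NM.mk U b = NM.mk U d) ∧
    (NM.mk U c = NM.mk U a ∨ NM.mk U c = NM.mk U b) ∧
    (NM.mk U d = NM.mk U a ∨ NM.mk U d = NM.mk U b) := by
  refine ⟨?_, ?_, ?_, ?_⟩
  · rw [← E_upr, ← h, E_upr]; exact Or.inl rfl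
  · rw [← E_upr, ← h, E_upr]; exact Or.inr rfl
  · rw [← E_upr, h, E_upr]; exact Or.inl rfl
  · rw [← E_upr, h, E_upr]; exact Or.inr rfl

theorem upr_congr (hF : G_FULL.{u}) (U : UF L) (a b c d : BSet L)
    (h : NM.mk U a = NM.mk U c) (k : NM.mk U b = NM.mk U d) :
    NM.mk U (upr a b) = NM.mk U (upr c d) := by
  refine nm_ext hF U _ _ fun s => ?_
  rw [E_upr, E_upr, h, k]

theorem kpr_iff (hF : G_FULL.{u}) (U : UF L) (a b c d : BSet L) :
    NM.mk U (kpr a b) = NM.mk U (kpr c d) ↔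
      (NM.mk U a = NM.mk U c ∧ NM.mk U b = NM.mk U d) := by
  constructor
  · intro h
    obtain ⟨h1, h2, h3, h4⟩ := upr_eq hF U _ _ _ _ h
    have hac : NM.mk U a = NM.mk U c := by
      rcases h1 with h1 | h1
      · have := upr_eq hF U _ _ _ _ h1
        rcases this.1 with h | h <;> exact h
      · have := upr_eq hF U _ _ _ _ h1
        rcases this.2.2.1 with h | h <;> exact h.symm
    refine ⟨hac, ?_⟩
    rcases h2 with h2 | h2
    · have k2 := upr_eq hF U _ _ _ _ h2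
      have hbc : NM.mk U b = NM.mk U c := by
        rcases k2.2.1 with h | h <;> exact h
      rcases h4 with h4 | h4
      · have k4 := upr_eq hF U _ _ _ _ h4
        have hda : NM.mk U d = NM.mk U a := by
          rcases k4.2.1 with h | h <;> exact h
        rw [hbc, hda, hac]
      · have k4 := upr_eq hF U _ _ _ _ h4
        rcases k4.2.1 with h | h
        · rw [hbc, h, hac]
        · exact h.symm
    · have k2 := upr_eq hF U _ _ _ _ h2
      rcases k2.2.1 with h | h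
      · rcases k2.2.2.2 with h' | h'
        · rw [h, h', hac]
        · exact h'.symm
      · exact h
  · rintro ⟨h, k⟩
    exact upr_congr hF U _ _ _ _ (upr_congr hF U _ _ _ _ h h) (upr_congr hF U _ _ _ _ h k)

theorem le_of_uf (hU : G_UFEX.{u}) {x y : L} (h : ∀ U : UF L, U.mem x → U.mem y) : x ≤ y := by
  by_contra hne
  have h0 : x ⊓ yᶜ ≠ ⊥ := by
    intro h0
    exact hne (by rwa [← le_compl_iff_disjoint_right.trans disjoint_iff, compl_compl] at *)
  obtain ⟨U, hU'⟩ := hU L _ h0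
  rw [U.inf_iff, U.compl] at hU'
  exact hU'.2 (h U hU'.1)

theorem prn (hF : G_FULL.{u}) (hU : G_UFEX.{u}) : G_PRN.{u} := by
  intro L _ U
  refine ⟨mem_upr, ?_, isPr_iff hF U, ?_⟩
  · intro a b c d
    have key : ∀ V : UF L, V.mem ((kpr a b).eq (kpr c d)) ↔ V.mem (a.eq c ⊓ b.eq d) := by
      intro V
      rw [V.inf_iff, ← NM.mk_eq, ← NM.mk_eq, ← NM.mk_eq]
      exact kpr_iff hF V a b c d
    exact le_antisymm (le_of_uf hU fun V => (key V).1) (le_of_uf hU fun V => (key V).2)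
  · intro z z' a b a' b' h h'
    obtain ⟨a, rfl⟩ := NM.mk_surj U a
    obtain ⟨b, rfl⟩ := NM.mk_surj U b
    obtain ⟨a', rfl⟩ := NM.mk_surj U a'
    obtain ⟨b', rfl⟩ := NM.mk_surj U b'
    rw [isPr_iff hF] at h h'
    rw [h, h']
    exact kpr_iff hF U a b a' b'

end Pool.Agent.Helper97.Ku.PkPrn
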