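import Pool.Agent.Helper97.Ku.GoalsC

/-! Finite dependence of branches. -/

namespace Pool.Agent.Helper97.Ku.PkFD

open Set

theorem mem_bo {P : Prop} {q : Cond} (h : q ∈ (bo P : BA)) : P := by
  by_contra hP
  rw [bo_false hP] at h
  exact RO.not_mem_bot q h

theorem Iio_countable (δ : Om) : (Iio δ).Countable := by
  have h1 : (Iio δ.1 : Set Ordinal.{0}).Countable := by
    rw [← Cardinal.le_aleph0_iff_set_countable, Cardinal.mk_Iio_ordinal]
    have h : δ.1.card < Cardinal.aleph 1 := by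
      have h0 : ∀ o : Ordinal.{0}, o < Ordinal.omega 1 → o.card < Cardinal.aleph 1 := by
        intro o ho
        rwa [← Cardinal.ord_aleph, Cardinal.lt_ord] at ho
      exact h0 δ.1 δ.2
    have h2 : δ.1.card ≤ Cardinal.aleph0 := by
      rw [← Order.lt_succ_iff, Cardinal.succ_aleph0]; exact h
    have h3 := Cardinal.lift_le.{1, 0}.mpr h2
    rwa [Cardinal.lift_aleph0] at h3
  have h2 : Iio δ = Subtype.val ⁻¹' (Iio δ.1) := rfl
  rw [h2]
  exact h1.preimage Subtype.val_injective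

theorem lim1 : Order.IsSuccLimit (Ordinal.omega 1 : Ordinal.{0}) := by
  rw [← Cardinal.ord_aleph]
  exact Cardinal.isSuccLimit_ord (Cardinal.aleph0_le_aleph 1)

theorem above {ι : Type*} [Countable ι] (f : ι → Om) : ∃ δ : Om, ∀ i, f i < δ := by
  have h : (⨆ i, Order.succ (f i).1) < Ordinal.omega 1 := by
    apply Ordinal.iSup_lt_omega_one
    intro i
    have hl := lim1.succ_lt (f i).2
    exact hl
  refine ⟨⟨_, h⟩, fun i => ?_⟩
  show (f i).1 < ⨆ i, Order.succ (f i).1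
  refine lt_of_lt_of_le (Order.lt_succ _) ?_
  have hb : BddAbove (range fun i => Order.succ (f i).1) := by
    refine ⟨Ordinal.omega 1, ?_⟩
    rintro _ ⟨i, rfl⟩
    exact (lim1.succ_lt (f i).2).le
  exact le_ciSup hb i

theorem not_ctb : ¬ Countable (ℕ → Bool) := by
  rw [← Cardinal.mk_le_aleph0_iff]
  simpa using Cardinal.aleph0_lt_continuum

/-- Deciding, restricted to a set of coordinates. -/
theorem decD (hC : G_CNTD) (D0 : Set Coord) (ι : Type 1) [Countable ι] (J : Type 1)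
    (c : ι → J → BA) (hc : ∀ i j, Dn D0 (c i j)) (r : Cond)
    (hr : ∀ i q, q ≤ r → ∃ s, s ≤ q ∧ ∃ j, s ∈ c i j) :
    ∃ r', r' ≤ r.rs D0 ∧ r'.supp ⊆ D0 ∧ ∀ i, ∃ j, r' ∈ c i j := by
  obtain ⟨q, hq, hq'⟩ := hC ι r (fun i => {s | ∃ j, s ∈ c i j}) (fun i q hq => by
    obtain ⟨s, hs, j, hj⟩ := hr i q hq
    exact ⟨s, hs, j, hj⟩) (fun i q s hs hq => by
    obtain ⟨j, hj⟩ := hq
    exact ⟨j, RO.lower hs hj⟩)
  refine ⟨q.rs D0, Cond.rs_mono hq D0, Cond.supp_rs_subset q D0, fun i => ?_⟩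
  obtain ⟨j, hj⟩ := hq' i
  exact ⟨j, hc i j q hj⟩

theorem fn_absurd {f : FN Om BA} {i j k : Om} {q : Cond} (h : q ∈ f.v i j) (h' : q ∈ f.v i k) :
    j = k := by
  by_contra hne
  have h1 : q ∈ f.v i j ⊓ f.v i k := RO.mem_inf.mpr ⟨h, h'⟩
  rw [f.fn i j k hne] at h1
  exact RO.not_mem_bot q h1

theorem tot_mem (f : FN Om BA) (i : Om) (q : Cond) : ∃ s, s ≤ q ∧ ∃ j, s ∈ f.v i j := by
  have h1 : q ∈ ⨆ j, f.v i j := by rw [f.tot i]; exact RO.mem_top q
  exact RO.mem_iSup.mp h1 q le_rfl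

theorem fd (hF : G_FUS) (hC : G_CNTD) (hD : G_DN) : G_FD := by
  intro G D0 x ht en b p hx hht hen hT hE hB
  by_contra hcon
  have hcon' : ∀ q, q ≤ p → ∀ F : Set Coord, F.Finite → ¬ Capt b (D0 ∪ F) q :=
    fun q hq F hFin hc => hcon ⟨q, hq, F, hFin, hc⟩
  obtain ⟨P, n, hPp, hPD, hn, hopp⟩ := hF Om b D0 p hcon'
  -- the countable set of indices
  set M : Set Om := ⋃ k, range (n k) with hM
  have hMc : M.Countable := by
    refine countable_iUnion fun k => ?_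
    have : range (n k) ⊆ range (fun τ : Fin k → Bool =>
        n k (fun i => if h : i < k then τ ⟨i, h⟩ else false)) := by
      rintro _ ⟨σ, rfl⟩
      refine ⟨fun i => σ i.1, ?_⟩
      exact hn k _ _ fun i hi => by simp [hi]
    exact (countable_range _).mono this
  have : Countable ↥M := hMc.to_subtype
  have : Countable ↥(Iio G.w0) := (Iio_countable G.w0).to_subtype
  set r : Cond := (P (fun _ => false)).rs D0 with hr
  have hPr : ∀ σ, (P σ).rs D0 = r := fun σ => hPD σ _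
  have hrr : r.rs D0 = r := Cond.rs_eq_self (Cond.supp_rs_subset _ _)
  -- heights
  obtain ⟨r1, hr1, hs1, h1⟩ := decD hC D0 ↥M Om (fun m α => ht.v m.1 α)
    (fun m α => hht _ _) r (fun m q _ => tot_mem ht m.1 q)
  choose α hα using h1
  obtain ⟨δ, hδ⟩ := above α
  have hr1' : r1.rs D0 = r1 := Cond.rs_eq_self hs1
  -- enumeration of level δ
  obtain ⟨r2, hr2, hs2, h2⟩ := decD hC D0 ↥(Iio G.w0) Om (fun i j => (en δ).v i.1 j)
    (fun i j => hen _ _ _) r1 (fun i q _ => tot_mem (en δ) i.1 q)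
  choose mm hmm using h2
  have hr2' : r2.rs D0 = r2 := Cond.rs_eq_self hs2
  -- deciding the relation
  obtain ⟨r3, hr3, hs3, h3⟩ := decD hC D0 (↥M × ↥(Iio G.w0)) (ULift.{1} Bool)
    (fun t c => if c.down then Rv G x t.1.1 (mm t.2) else (Rv G x t.1.1 (mm t.2))ᶜ)
    (fun t c => by
      by_cases hc : c.down
      · simp only [hc, if_true]; exact hx _ _
      · simp only [hc]; exact hD.1 _ _ (hx _ _)) r2 (fun t q _ => by
      obtain ⟨s, hs, hs'⟩ := RO.mem_or_compl (a := Rv G x t.1.1 (mm t.2)) q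
      rcases hs' with hs' | hs'
      · exact ⟨s, hs, ⟨true⟩, by simpa using hs'⟩
      · exact ⟨s, hs, ⟨false⟩, by simpa using hs'⟩)
  have h3' : ∀ (m : ↥M) (i : ↥(Iio G.w0)),
      r3 ∈ Rv G x m.1 (mm i) ∨ r3 ∈ (Rv G x m.1 (mm i))ᶜ := by
    intro m i
    obtain ⟨c, hc⟩ := h3 (m, i)
    by_cases h : c.down
    · left; simpa [h] using hc
    · right; simpa [h] using hc
  rw [hr2'] at hr3
  rw [hr1'] at hr2
  rw [hrr] at hr1
  have hr3r : r3 ≤ r := hr3.trans (hr2.trans hr1)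
  have hα3 : ∀ m, r3 ∈ ht.v m.1 (α m) := fun m => RO.lower (hr3.trans hr2) (hα m)
  have hmm3 : ∀ i, r3 ∈ (en δ).v i.1 (mm i) := fun i => RO.lower hr3 (hmm i)
  -- the index
  have key : ∀ σ, ∃ (i : ↥(Iio G.w0)) (q : Cond), q ≤ P σ ∧ q ≤ r3 ∧ q ∈ b (mm i) ∧
      q ∈ ht.v (mm i) δ := by
    intro σ
    have hle : r3 ≤ (P σ).rs D0 := by rw [hPr σ]; exact hr3r
    have hQ1 := am_le_left (cmp_of_le hle hs3)
    have hQ2 := am_le_right (cmp_of_le hle hs3)
    set Q := am (P σ) r3 (cmp_of_le hle hs3)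
    obtain ⟨q', hq', j, hj⟩ := RO.mem_iSup.mp (hB.co δ) Q (hQ1.trans (hPp σ))
    obtain ⟨hj1, hj2⟩ := RO.mem_inf.mp hj
    have hq'p : q' ≤ p := hq'.trans (hQ1.trans (hPp σ))
    obtain ⟨q'', hq'', i, hi⟩ := RO.mem_iSup.mp (RO.mem_himp.mp (hE δ j) q' hq'p hj2) q' le_rfl
    obtain ⟨hi1, hi2⟩ := RO.mem_inf.mp hi
    have hi0 : i < G.w0 := mem_bo hi1
    have hq3 : q'' ≤ r3 := hq''.trans (hq'.trans hQ2)
    have e : j = mm ⟨i, hi0⟩ := fn_absurd hi2 (RO.lower hq3 (hmm3 ⟨i, hi0⟩))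
    refine ⟨⟨i, hi0⟩, q'', hq''.trans (hq'.trans hQ1), hq3, ?_, ?_⟩
    · rw [← e]; exact RO.lower hq'' hj1
    · rw [← e]; exact RO.lower hq'' hj2
  choose ι q hqP hq3 hqb hqh using key
  have main : ∀ σ τ (m : ↥M), P σ ∈ b m.1 → P τ ∈ (b m.1)ᶜ → ι σ = ι τ → False := by
    intro σ τ m hσ hτ e
    have h1 : q σ ∈ b m.1 := RO.lower (hqP σ) hσ
    have h2 : q σ ∈ Rv G x m.1 (mm (ι σ)) ⊔ (bo (m.1 = mm (ι σ)) ⊔ Rv G x (mm (ι σ)) m.1) :=
      RO.mem_himp.mp (hB.ch m.1 (mm (ι σ))) (q σ) ((hqP σ).trans (hPp σ))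
        (RO.mem_inf.mpr ⟨h1, hqb σ⟩)
    have h4 : r3 ∈ Rv G x m.1 (mm (ι σ)) := by
      rcases h3' m (ι σ) with h | h
      · exact h
      · exfalso
        obtain ⟨s, hs, hs'⟩ := RO.mem_sup.mp h2 (q σ) le_rfl
        rcases hs' with hs' | hs'
        · exact RO.not_mem_compl hs' (RO.lower (hs.trans (hq3 σ)) h)
        · obtain ⟨t, ht', ht''⟩ := RO.mem_sup.mp hs' s le_rfl
          have htq : t ≤ q σ := ht'.trans hs
          have hA : t ∈ ht.v m.1 (α m) := RO.lower (htq.trans (hq3 σ)) (hα3 m)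
          have hBd : t ∈ ht.v (mm (ι σ)) δ := RO.lower htq (hqh σ)
          rcases ht'' with ht'' | ht''
          · have e1 : m.1 = mm (ι σ) := mem_bo ht''
            rw [e1] at hA
            have := fn_absurd hA hBd
            exact absurd (hδ m) (by rw [this]; exact lt_irrefl _)
          · have h5 := RO.mem_himp.mp (hT.ht_lt (mm (ι σ)) m.1 δ (α m)) t
              (htq.trans ((hqP σ).trans (hPp σ)))
              (RO.mem_inf.mpr ⟨ht'', RO.mem_inf.mpr ⟨hBd, hA⟩⟩)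
            exact absurd (hδ m) (not_lt.mpr (mem_bo h5).le)
    have h5 : q τ ∈ b (mm (ι σ)) := by rw [e]; exact hqb τ
    have h6 : q τ ∈ b m.1 := RO.mem_himp.mp (hB.dn m.1 (mm (ι σ))) (q τ)
      ((hqP τ).trans (hPp τ)) (RO.mem_inf.mpr ⟨h5, RO.lower (hq3 τ) h4⟩)
    exact RO.not_mem_compl h6 (RO.lower (hqP τ) hτ)
  have hinj : Function.Injective ι := by
    intro σ τ e
    by_contra hne
    have hex : ∃ k, σ k ≠ τ k := by
      by_contra hc
      push Not at hc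
      exact hne (funext hc)
    classical
    have hk := Nat.find_spec hex
    set k := Nat.find hex
    have hag : Agree k σ τ := fun i hi => by
      by_contra hc
      exact Nat.find_min hex hi hc
    have hnn : n k σ = n k τ := hn k σ τ hag
    have hmem : n k σ ∈ M := mem_iUnion.mpr ⟨k, σ, rfl⟩
    rcases hopp k σ τ hag hk with h | h
    · exact main σ τ ⟨_, hmem⟩ h.1 h.2 e
    · exact main τ σ ⟨_, hmem⟩ h.2 h.1 e.symm
  exact not_ctb hinj.countable

end Pool.Agent.Helper97.Ku.PkFD
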