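import Pool.Agent.Helper97.Ku.GoalsD

/-! The certificate formula. -/

namespace Pool.Agent.Helper97.Ku.PkSyn2

open Set

section general

universe u v w

variable {W : Type u} {F : Type v} {L : Type w} [CompleteBooleanAlgebra L]
  (M : BStr W F L) (i : ℕ → W) (e : ℕ → F)

theorem val_neg (a : SO) : (SO.neg a).val M i e = (a.val M i e)ᶜ := rfl

theorem val_and (a b : SO) : (SO.and a b).val M i e = a.val M i e ⊓ b.val M i e := rfl

theorem val_all (k : ℕ) (a : SO) :
    (SO.all k a).val M i e = ⨅ x, a.val M (Function.update i k x) e := rfl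

theorem val_allF (k : ℕ) (a : SO) :
    (SO.allF k a).val M i e = ⨅ x, a.val M i (Function.update e k x) := rfl

theorem val_imp (a b : SO) : (SO.imp a b).val M i e = (a.val M i e ⇨ b.val M i e) := by
  simp only [SO.imp, SO.val]
  rw [compl_inf, compl_compl, himp_eq, sup_comm]

theorem val_or (a b : SO) : (SO.or a b).val M i e = (a.val M i e ⊔ b.val M i e) := by
  simp only [SO.or, SO.val]
  rw [compl_inf, compl_compl, compl_compl]

theorem val_ex (k : ℕ) (a : SO) :
    (SO.ex k a).val M i e = ⨆ x, a.val M (Function.update i k x) e := by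
  simp only [SO.ex, SO.val]
  rw [compl_iInf]
  simp only [compl_compl]

theorem val_exF (k : ℕ) (a : SO) :
    (SO.exF k a).val M i e = ⨆ x, a.val M i (Function.update e k x) := by
  simp only [SO.exF, SO.val]
  rw [compl_iInf]
  simp only [compl_compl]

theorem bo_himp {P : Prop} (b : L) : ((bo P : L) ⇨ b) = ⨅ _ : P, b := by
  by_cases h : P
  · simp [bo, h]
  · simp [bo, h]

theorem bo_compl {P : Prop} : (bo P : L)ᶜ = bo (¬ P) := by
  by_cases h : P
  · simp [bo, h]
  · simp [bo, h]

end general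

theorem val_iff (G : Grd Om) (i : ℕ → Om) (e : ℕ → FN Om BA) (a b : SO) :
    (SO.iff a b).val (M0 G BA) i e = eqB (a.val (M0 G BA) i e) (b.val (M0 G BA) i e) := by
  simp only [SO.iff, val_and, val_imp, eqB]

theorem c01 (G : Grd Om) : G.c1 ≠ G.c0 := fun h => by
  have := (G.lt_c1 G.c0).mpr rfl
  rw [h] at this
  exact lt_irrefl _ this

theorem chr_c1 (G : Grd Om) (a : Om → BA) (m : Om) : (chr G a).v m G.c1 = a m := by
  show (bo (G.c1 = G.c1) ⊓ a m) ⊔ (bo (G.c1 = G.c0) ⊓ (a m)ᶜ) = a m
  rw [bo_true (P := G.c1 = G.c1) rfl, bo_false (c01 G)]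
  simp

theorem tFN_c1 (G : Grd Om) (γ k β : Om) :
    (tFN G).v (G.pi (γ, G.pi (k, β))) G.c1 = tN G γ k β := by
  rw [tFN, chr_c1]
  simp

/-- The set coded by a function. -/
def st (G : Grd Om) (A : FN Om BA) (β : Om) : BA := A.v β G.c1

theorem st_surj (G : Grd Om) : Function.Surjective (st G) := fun a =>
  ⟨chr G a, funext fun m => chr_c1 G a m⟩

variable (G : Grd Om) (i : ℕ → Om) (e : ℕ → FN Om BA)

theorem nd_val (he : e 4 = tFN G) (A a b : ℕ) (ha : a ≠ 30) (hb : b ≠ 30) :
    (SO.nd A (.v a) (.v b)).val (M0 G BA) i e = ndV G (st G (e A)) (i a) (i b) := by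
  simp only [SO.nd, val_all, val_imp, val_iff, ndV, st]
  refine iInf_congr fun x => ?_
  simp only [SO.val, Tm.ev, M0, Function.update_self, Function.update_of_ne ha,
    Function.update_of_ne hb, he, tFN_c1]
  rw [bo_himp]

theorem brT_val (he : e 4 = tFN G) (A : ℕ) :
    (SO.brT A).val (M0 G BA) i e = brV G (st G (e A)) := by
  simp only [SO.brT, val_all, val_ex, val_and, brV]
  refine iInf_congr fun γ => iSup_congr fun k => ?_
  rw [nd_val G _ e he A 31 32 (by decide) (by decide)]
  simp [SO.val, Tm.ev, M0, Function.update]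

theorem notL_val (A : ℕ) :
    (SO.notL A).val (M0 G BA) i e =
      nlV (fun ν β => (e 3).v (G.pi (ν, β)) G.c1) (st G (e A)) := by
  simp only [SO.notL, val_all, val_ex, val_neg, val_iff, nlV, st]
  refine iInf_congr fun ν => iSup_congr fun β => ?_
  simp [SO.val, Tm.ev, M0, Function.update]

theorem nee_val (A A' : ℕ) :
    (SO.nee A A').val (M0 G BA) i e = neV (st G (e A)) (st G (e A')) := by
  simp only [SO.nee, val_ex, val_neg, val_iff, neV, st]
  refine iSup_congr fun β => ?_
  simp [SO.val, Tm.ev, M0, Function.update]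

theorem EA_val (he : e 4 = tFN G) (A j : ℕ) (h6 : j ≠ 36) (h7 : j ≠ 37) :
    (SO.EA A (.v j)).val (M0 G BA) i e =
      EAV G (st G (e A)) (fun γ k n => (e 2).v (G.pi (G.pi (γ, k), n)) G.c1) (i j) := by
  simp only [SO.EA, val_ex, val_and, EAV]
  refine iSup_congr fun γ => iSup_congr fun k => ?_
  rw [nd_val G _ e he A 36 37 (by decide) (by decide)]
  simp [SO.val, Tm.ev, M0, Function.update, h6, h7]

theorem hy_val (he : e 4 = tFN G) (A : ℕ) :
    (SO.hy A).val (M0 G BA) i e =
      hyV G (fun ν β => (e 3).v (G.pi (ν, β)) G.c1) (i 45) (i 46) (st G (e A)) := by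
  simp only [SO.hy, val_and, brT_val G i e he, notL_val, hyV]
  rw [nd_val G _ e he A 45 46 (by decide) (by decide)]

theorem cof_val (he : e 4 = tFN G) (A : ℕ) :
    (SO.cof A).val (M0 G BA) i e =
      cofV G (e 1) (fun γ k n => (e 2).v (G.pi (G.pi (γ, k), n)) G.c1) (st G (e A)) := by
  simp only [SO.cof, val_all, val_ex, val_and, cofV]
  refine iInf_congr fun α => iSup_congr fun n => ?_
  rw [EA_val G _ e he A 39 (by decide) (by decide)]
  simp [SO.val, Tm.ev, M0, Function.update]

theorem chn_val (he : e 4 = tFN G) (A : ℕ) :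
    (SO.chn A).val (M0 G BA) i e =
      chnV G (e 0) (fun γ k n => (e 2).v (G.pi (G.pi (γ, k), n)) G.c1) (st G (e A)) := by
  simp only [SO.chn, val_all, val_imp, val_and, val_or, chnV]
  refine iInf_congr fun n => iInf_congr fun m => ?_
  rw [EA_val G _ e he A 40 (by decide) (by decide), EA_val G _ e he A 41 (by decide) (by decide)]
  simp [SO.R, SO.val, Tm.ev, M0, Function.update, Rv]

theorem inc_val (he : e 4 = tFN G) (A A' : ℕ) :
    (SO.inc A A').val (M0 G BA) i e =
      incV G (e 1) (fun γ k n => (e 2).v (G.pi (G.pi (γ, k), n)) G.c1) (st G (e A))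
        (st G (e A')) := by
  simp only [SO.inc, val_ex, val_and, val_neg, incV]
  refine iSup_congr fun n => iSup_congr fun m => iSup_congr fun α => ?_
  rw [EA_val G _ e he A 42 (by decide) (by decide), EA_val G _ e he A' 43 (by decide) (by decide)]
  simp [SO.val, Tm.ev, M0, Function.update, bo_compl]

theorem syn2 : G_SYN2 := by
  intro G i e he
  simp only [SO.cf, val_ex, val_and, val_allF, val_imp]
  refine iSup_congr fun γ0 => iSup_congr fun k0 => ?_
  congr 1
  set E : Om → Om → Om → BA := fun γ k n => (e 2).v (G.pi (G.pi (γ, k), n)) G.c1 with hE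
  set Lx : Om → Om → BA := fun ν β => (e 3).v (G.pi (ν, β)) G.c1 with hL
  have key : ∀ A A' : FN Om BA,
      ((SO.hy 5).val (M0 G BA) (Function.update (Function.update i 45 γ0) 46 k0)
          (Function.update (Function.update e 5 A) 6 A') ⇨
        (SO.cof 5).val (M0 G BA) (Function.update (Function.update i 45 γ0) 46 k0)
          (Function.update (Function.update e 5 A) 6 A') ⊓
        (SO.chn 5).val (M0 G BA) (Function.update (Function.update i 45 γ0) 46 k0)
          (Function.update (Function.update e 5 A) 6 A')) ⊓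
      ((SO.hy 5).val (M0 G BA) (Function.update (Function.update i 45 γ0) 46 k0)
          (Function.update (Function.update e 5 A) 6 A') ⊓
        ((SO.hy 6).val (M0 G BA) (Function.update (Function.update i 45 γ0) 46 k0)
          (Function.update (Function.update e 5 A) 6 A') ⊓
        (SO.nee 5 6).val (M0 G BA) (Function.update (Function.update i 45 γ0) 46 k0)
          (Function.update (Function.update e 5 A) 6 A')) ⇨
        (SO.inc 5 6).val (M0 G BA) (Function.update (Function.update i 45 γ0) 46 k0)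
          (Function.update (Function.update e 5 A) 6 A')) =
      (hyV G Lx γ0 k0 (st G A) ⇨ (cofV G (e 1) E (st G A) ⊓ chnV G (e 0) E (st G A))) ⊓
      ((hyV G Lx γ0 k0 (st G A) ⊓ (hyV G Lx γ0 k0 (st G A') ⊓ neV (st G A) (st G A'))) ⇨
        incV G (e 1) E (st G A) (st G A')) := by
    intro A A'
    have he' : (Function.update (Function.update e 5 A) 6 A') 4 = tFN G := by
      simpa [Function.update] using he
    rw [hy_val G _ _ he', hy_val G _ _ he', cof_val G _ _ he', chn_val G _ _ he',
      inc_val G _ _ he', nee_val]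
    simp [Function.update, hE, hL]
  simp only [key]
  rw [certV]
  rw [← (st_surj G).iInf_comp (fun a => hyV G Lx γ0 k0 a ⇨ (cofV G (e 1) E a ⊓ chnV G (e 0) E a)),
    ← (st_surj G).iInf_comp (fun a => ⨅ a' : Om → BA,
      ((hyV G Lx γ0 k0 a ⊓ (hyV G Lx γ0 k0 a' ⊓ neV a a')) ⇨ incV G (e 1) E a a'))]
  have : Nonempty (FN Om BA) := ⟨tFN G⟩
  rw [← iInf_inf_eq]
  refine iInf_congr fun A => ?_
  rw [← (st_surj G).iInf_comp (fun a' =>
      ((hyV G Lx γ0 k0 (st G A) ⊓ (hyV G Lx γ0 k0 a' ⊓ neV (st G A) a')) ⇨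
        incV G (e 1) E (st G A) a'))]
  rw [iInf_inf_eq, iInf_const]

end Pool.Agent.Helper97.Ku.PkSyn2
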